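import Pool.Agent.helper94.SCT.Spec
import Pool.Agent.helper74.TG.SW

/-!
# Row sct:PNM (MP_ad8ced_nt)

The prime number theorem with the smooth weight `φ(log(m/x)) m²`.
-/

set_option autoImplicit false

namespace Pool.Agent.SCT

open Finset ArithmeticFunction MeasureTheory

/-- the weight -/
private noncomputable def PNM_H (φ : ℝ → ℝ) (u : ℝ) : ℝ := φ u * Real.exp (2 * u)

private theorem PNM_cd {φ : ℝ → ℝ} (hφ : Sm φ) : ContDiff ℝ 1 (PNM_H φ) := by
  unfold PNM_H
  have h1 : ContDiff ℝ 1 φ := hφ.1.of_le (by exact_mod_cast le_top)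
  have h2 : ContDiff ℝ 1 (fun u : ℝ => Real.exp (2 * u)) := by fun_prop
  exact h1.mul h2

private theorem PNM_cs {φ : ℝ → ℝ} (hφ : Sm φ) : HasCompactSupport (PNM_H φ) := by
  unfold PNM_H
  exact hφ.2.mul_right

private theorem PNM_zero {φ : ℝ → ℝ} {R : ℝ} (hR1 : ∀ u, φ u ≠ 0 → |u| ≤ R) (u : ℝ)
    (hu : R < |u|) : deriv (PNM_H φ) u = 0 := by
  have hts : tsupport (PNM_H φ) ⊆ Metric.closedBall (0 : ℝ) R := by
    refine closure_minimal ?_ Metric.isClosed_closedBall
    intro v hv
    rw [Metric.mem_closedBall, dist_zero_right, Real.norm_eq_abs]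
    apply hR1 v
    intro h0
    apply hv
    unfold PNM_H
    rw [h0, zero_mul]
  have hnot : u ∉ tsupport (PNM_H φ) := by
    intro h
    have := hts h
    rw [Metric.mem_closedBall, dist_zero_right, Real.norm_eq_abs] at this
    linarith
  have h2 : u ∉ Function.support (deriv (PNM_H φ)) := fun h => hnot (support_deriv_subset h)
  simpa using h2

/-- the sum as an integral against the derivative -/
private theorem PNM_sum {φ : ℝ → ℝ} (hφ : Sm φ) {X : ℝ} (K : ℕ) :
    ∑ n ∈ Icc 1 K, vonMangoldt n * PNM_H φ (Real.log ((n : ℝ) / X)) =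
    -∫ u : ℝ, ∑ n ∈ Icc 1 K, vonMangoldt n *
      (Set.Ici (Real.log ((n : ℝ) / X))).indicator (deriv (PNM_H φ)) u := by
  have hint : Integrable (deriv (PNM_H φ)) :=
    ((PNM_cd hφ).continuous_deriv le_rfl).integrable_of_hasCompactSupport (PNM_cs hφ).deriv
  rw [integral_finsetSum]
  · rw [← Finset.sum_neg_distrib]
    refine Finset.sum_congr rfl fun n _ => ?_
    have h1 := HasCompactSupport.integral_Ioi_deriv_eq (PNM_cd hφ) (PNM_cs hφ)
      (Real.log ((n : ℝ) / X))
    rw [integral_const_mul, integral_indicator measurableSet_Ici, integral_Ici_eq_integral_Ioi, h1]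
    ring
  · intro n _
    exact (hint.indicator measurableSet_Ici).const_mul _

/-- the expected value as an integral against the derivative -/
private theorem PNM_exp {φ : ℝ → ℝ} (hφ : Sm φ) (X : ℝ) :
    X * ∫ u : ℝ, φ u * Real.exp (3 * u) = -∫ u : ℝ, (X * Real.exp u) * deriv (PNM_H φ) u := by
  have hc := (PNM_cd hφ)
  have hs := (PNM_cs hφ)
  have hder : ∀ u : ℝ, HasDerivAt (fun u : ℝ => (X * Real.exp u) * PNM_H φ u)
      ((X * Real.exp u) * PNM_H φ u + (X * Real.exp u) * deriv (PNM_H φ) u) u := by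
    intro u
    have h1 : HasDerivAt (fun u : ℝ => X * Real.exp u) (X * Real.exp u) u := (Real.hasDerivAt_exp u).const_mul X
    have h2 : HasDerivAt (PNM_H φ) (deriv (PNM_H φ) u) u :=
      ((hc.differentiable one_ne_zero) u).hasDerivAt
    exact h1.mul h2
  have hcont1 : Continuous (fun u : ℝ => X * Real.exp u) := by fun_prop
  have hi1 : Integrable (fun u : ℝ => (X * Real.exp u) * PNM_H φ u) :=
    (hcont1.mul hc.continuous).integrable_of_hasCompactSupport hs.mul_left
  have hi2 : Integrable (fun u : ℝ => (X * Real.exp u) * deriv (PNM_H φ) u) :=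
    (hcont1.mul (hc.continuous_deriv le_rfl)).integrable_of_hasCompactSupport hs.deriv.mul_left
  have h0 := integral_eq_zero_of_hasDerivAt_of_integrable hder (hi1.add hi2) hi1
  rw [integral_add hi1 hi2] at h0
  have h3 : X * ∫ u : ℝ, φ u * Real.exp (3 * u) = ∫ u : ℝ, (X * Real.exp u) * PNM_H φ u := by
    rw [← integral_const_mul]
    refine integral_congr_ae (Filter.Eventually.of_forall fun u => ?_)
    change X * (φ u * Real.exp (3 * u)) = X * Real.exp u * (φ u * Real.exp (2 * u))
    have h4 : Real.exp (3 * u) = Real.exp u * Real.exp (2 * u) := by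
      rw [← Real.exp_add]
      congr 1
      ring
    rw [h4]
    ring
  rw [h3]
  exact eq_neg_of_add_eq_zero_left h0

/-- the sum of the row is finite -/
private theorem PNM_fin {φ : ℝ → ℝ} {R : ℝ} (hR : ∀ u, φ u ≠ 0 → |u| ≤ R) {N : ℝ} (hN : 0 < N) (K : ℕ)
    (hK : N * Real.exp R ≤ K) :
    ∑' n : ℕ, vonMangoldt n * φ (Real.log ((n : ℝ) / N)) * (n : ℝ) ^ 2 =
    N ^ 2 * ∑ n ∈ Icc 1 K, vonMangoldt n * PNM_H φ (Real.log ((n : ℝ) / N)) := by
  have h0 : ∑' n : ℕ, vonMangoldt n * φ (Real.log ((n : ℝ) / N)) * (n : ℝ) ^ 2 =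
      ∑ n ∈ Icc 1 K, vonMangoldt n * φ (Real.log ((n : ℝ) / N)) * (n : ℝ) ^ 2 := by
    refine tsum_eq_sum fun n hn => ?_
    rcases Nat.eq_zero_or_pos n with h0 | h0
    · subst h0
      simp
    · have h1 : K < n := by
        by_contra hc
        exact hn (mem_Icc.2 ⟨h0, by omega⟩)
      have h2 : φ (Real.log ((n : ℝ) / N)) = 0 := by
        by_contra hc
        have h3 := hR _ hc
        have h4 : (K : ℝ) < n := by exact_mod_cast h1
        have h5 : Real.exp R < (n : ℝ) / N := by
          rw [lt_div_iff₀ hN]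
          linarith [mul_comm N (Real.exp R)]
        have h6 : R < Real.log ((n : ℝ) / N) := by
          rw [Real.lt_log_iff_exp_lt ((Real.exp_pos R).trans h5)]
          exact h5
        linarith [le_abs_self (Real.log ((n : ℝ) / N))]
      rw [h2]
      simp
  rw [h0, mul_sum]
  refine sum_congr rfl fun n hn => ?_
  have hn0 : (0 : ℝ) < n := by exact_mod_cast (mem_Icc.1 hn).1
  unfold PNM_H
  have h1 : Real.exp (2 * Real.log ((n : ℝ) / N)) = ((n : ℝ) / N) ^ 2 := by
    rw [two_mul, Real.exp_add, Real.exp_log (by positivity)]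
    ring
  rw [h1]
  field_simp

theorem PNM : PNM_stmt := by
  intro φ hφ κ hκ
  obtain ⟨R, hR0, hR1, hR2⟩ := hφ.bound
  obtain ⟨D, hD⟩ := ((PNM_cd hφ).continuous_deriv le_rfl).bounded_above_of_compact_support (PNM_cs hφ).deriv
  have hD0 : 0 ≤ D := (norm_nonneg _).trans (hD 0)
  obtain ⟨C, z₀, hC, hpsi⟩ := Pool.Agent.helper74.TG.psi_pnt 1
  -- the constant
  set Q : ℝ := 2 * R * (2 * C * Real.exp R) * D with hQ
  have htend : Filter.Tendsto (fun x : ℕ => Real.log (x : ℝ)) Filter.atTop Filter.atTop :=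
    Real.tendsto_log_atTop.comp tendsto_natCast_atTop_atTop
  obtain ⟨x₀, hx₀⟩ := Filter.eventually_atTop.1 ((htend.eventually_ge_atTop (max (Q / κ) (max 1 (2 * R)))).and
    ((Filter.eventually_ge_atTop 1).and
      ((tendsto_natCast_atTop_atTop (R := ℝ)).eventually_ge_atTop (z₀ * Real.exp R))))
  refine ⟨x₀, fun x hx => ?_⟩
  obtain ⟨hL, hx1, hxz⟩ := hx₀ x hx
  set L : ℝ := Real.log x with hLdef
  have hLQ : Q / κ ≤ L := (le_max_left _ _).trans hL
  have hL1 : 1 ≤ L := ((le_max_left _ _).trans (le_max_right _ _)).trans hL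
  have hLR : 2 * R ≤ L := ((le_max_right _ _).trans (le_max_right _ _)).trans hL
  have hL0 : 0 < L := by linarith
  have hx0 : (0 : ℝ) < x := by exact_mod_cast hx1
  set X : ℝ := (x : ℝ) with hX
  set K : ℕ := ⌈X * Real.exp R⌉₊ with hK
  have hKle : X * Real.exp R ≤ K := Nat.le_ceil _
  have hsplit : X ^ 3 * ∫ u : ℝ, φ u * Real.exp (3 * u) =
      X ^ 2 * (X * ∫ u : ℝ, φ u * Real.exp (3 * u)) := by ring
  rw [PNM_fin hR1 hx0 K hKle, hsplit, ← mul_sub, PNM_sum hφ K, PNM_exp hφ X]
  have hint : Integrable (deriv (PNM_H φ)) :=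
    ((PNM_cd hφ).continuous_deriv le_rfl).integrable_of_hasCompactSupport (PNM_cs hφ).deriv
  have hcont1 : Continuous (fun u : ℝ => X * Real.exp u) := by fun_prop
  have hi2 : Integrable (fun u : ℝ => (X * Real.exp u) * deriv (PNM_H φ) u) :=
    (hcont1.mul ((PNM_cd hφ).continuous_deriv le_rfl)).integrable_of_hasCompactSupport
      (PNM_cs hφ).deriv.mul_left
  have hi3 : Integrable (fun u : ℝ => ∑ n ∈ Icc 1 K, vonMangoldt n *
      (Set.Ici (Real.log ((n : ℝ) / X))).indicator (deriv (PNM_H φ)) u) :=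
    integrable_finsetSum _ fun n _ => (hint.indicator measurableSet_Ici).const_mul _
  have hcomb : (-∫ u : ℝ, ∑ n ∈ Icc 1 K, vonMangoldt n *
      (Set.Ici (Real.log ((n : ℝ) / X))).indicator (deriv (PNM_H φ)) u) -
      (-∫ u : ℝ, (X * Real.exp u) * deriv (PNM_H φ) u) =
      ∫ u : ℝ, ((X * Real.exp u) * deriv (PNM_H φ) u -
        ∑ n ∈ Icc 1 K, vonMangoldt n *
          (Set.Ici (Real.log ((n : ℝ) / X))).indicator (deriv (PNM_H φ)) u) := by
    rw [integral_sub hi2 hi3]
    ring
  rw [hcomb]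
  -- the pointwise bound
  set M : ℝ := 2 * C * (X * Real.exp R) / L * D with hM
  have hM0 : 0 ≤ M := by positivity
  have hpt : ∀ u : ℝ, ‖(X * Real.exp u) * deriv (PNM_H φ) u -
      ∑ n ∈ Icc 1 K, vonMangoldt n *
        (Set.Ici (Real.log ((n : ℝ) / X))).indicator (deriv (PNM_H φ)) u‖ ≤
      (Set.Icc (-R) R).indicator (fun _ => M) u := by
    intro u
    by_cases hu : R < |u|
    · have h0 := PNM_zero hR1 u hu
      have h1 : ∑ n ∈ Icc 1 K, vonMangoldt n *
          (Set.Ici (Real.log ((n : ℝ) / X))).indicator (deriv (PNM_H φ)) u = 0 := by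
        refine Finset.sum_eq_zero fun n _ => ?_
        by_cases hn : u ∈ Set.Ici (Real.log ((n : ℝ) / X))
        · rw [Set.indicator_of_mem hn, h0, mul_zero]
        · rw [Set.indicator_of_notMem hn, mul_zero]
      rw [h1, h0, mul_zero, sub_zero, norm_zero]
      exact Set.indicator_nonneg (fun _ _ => hM0) u
    · push Not at hu
      have huI : u ∈ Set.Icc (-R) R := abs_le.1 hu
      rw [Set.indicator_of_mem huI]
      set z : ℝ := X * Real.exp u with hz
      have hzX : z ≤ X * Real.exp R := mul_le_mul_of_nonneg_left (Real.exp_le_exp.2 huI.2) hx0.le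
      have hz0 : 0 < z := by positivity
      have hzz : z₀ ≤ z := by
        have h1 : Real.exp (-R) ≤ Real.exp u := Real.exp_le_exp.2 huI.1
        have h2 : z₀ ≤ X * Real.exp (-R) := by
          rw [Real.exp_neg, ← div_eq_mul_inv, le_div_iff₀ (Real.exp_pos R)]
          exact hxz
        exact h2.trans (mul_le_mul_of_nonneg_left h1 hx0.le)
      have hlz : L / 2 ≤ Real.log z := by
        rw [hz, Real.log_mul hx0.ne' (Real.exp_pos u).ne', Real.log_exp]
        have h1 := huI.1
        linarith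
      have h1 : ∑ n ∈ Icc 1 K, vonMangoldt n *
          (Set.Ici (Real.log ((n : ℝ) / X))).indicator (deriv (PNM_H φ)) u =
          (∑ n ∈ Ioc 0 ⌊z⌋₊, vonMangoldt n) * deriv (PNM_H φ) u := by
        rw [Finset.sum_mul]
        have hsub : Ioc 0 ⌊z⌋₊ ⊆ Icc 1 K := by
          intro n hn
          rw [mem_Ioc] at hn
          rw [mem_Icc]
          refine ⟨hn.1, ?_⟩
          have h2 : (n : ℝ) ≤ z := (Nat.le_floor_iff hz0.le).1 hn.2
          have h3 : (n : ℝ) ≤ K := h2.trans (hzX.trans hKle)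
          exact_mod_cast h3
        rw [← Finset.sum_subset hsub]
        · refine Finset.sum_congr rfl fun n hn => ?_
          rw [mem_Ioc] at hn
          have hn0 : (0 : ℝ) < n := by exact_mod_cast hn.1
          have h2 : (n : ℝ) ≤ z := (Nat.le_floor_iff hz0.le).1 hn.2
          have h3 : u ∈ Set.Ici (Real.log ((n : ℝ) / X)) := by
            rw [Set.mem_Ici, Real.log_le_iff_le_exp (by positivity), div_le_iff₀ hx0]
            linarith [mul_comm X (Real.exp u)]
          rw [Set.indicator_of_mem h3]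
        · intro n hn hn'
          rw [mem_Icc] at hn
          have hn0 : (0 : ℝ) < n := by exact_mod_cast hn.1
          have h2 : z < n := by
            by_contra hc
            push Not at hc
            exact hn' (mem_Ioc.2 ⟨hn.1, (Nat.le_floor_iff hz0.le).2 hc⟩)
          have h3 : u ∉ Set.Ici (Real.log ((n : ℝ) / X)) := by
            rw [Set.mem_Ici, Real.log_le_iff_le_exp (by positivity), div_le_iff₀ hx0]
            linarith [mul_comm X (Real.exp u)]
          rw [Set.indicator_of_notMem h3, mul_zero]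
      rw [h1, ← sub_mul, norm_mul, Real.norm_eq_abs, abs_sub_comm]
      refine mul_le_mul ?_ (hD u) (norm_nonneg _) (by positivity)
      refine (hpsi z hzz).trans ?_
      rw [pow_one]
      have hL2 : 0 < L / 2 := by linarith
      calc C * z / Real.log z ≤ C * (X * Real.exp R) / (L / 2) :=
            div_le_div₀ (by positivity) (mul_le_mul_of_nonneg_left hzX hC.le) hL2 hlz
        _ = 2 * C * (X * Real.exp R) / L := by field_simp
  have hbint : Integrable ((Set.Icc (-R) R).indicator (fun _ : ℝ => M)) := by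
    rw [integrable_indicator_iff measurableSet_Icc]
    exact integrableOn_const (by simp)
  have hfin := (norm_integral_le_of_norm_le hbint (Filter.Eventually.of_forall hpt))
  rw [integral_indicator measurableSet_Icc, setIntegral_const, smul_eq_mul,
    Real.volume_real_Icc_of_le (by linarith), Real.norm_eq_abs] at hfin
  rw [abs_mul, abs_of_nonneg (by positivity : (0 : ℝ) ≤ X ^ 2)]
  refine (mul_le_mul_of_nonneg_left hfin (by positivity)).trans ?_
  have h5 : Q ≤ κ * L := by
    rw [div_le_iff₀ hκ] at hLQ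
    linarith [mul_comm κ L]
  have h6 : X ^ 2 * ((R - -R) * M) = X ^ 3 * (Q / L) := by
    rw [hM, hQ]
    field_simp
    ring
  rw [h6, mul_comm κ]
  refine mul_le_mul_of_nonneg_left ?_ (by positivity)
  rw [div_le_iff₀ hL0]
  exact h5

end Pool.Agent.SCT
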